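import Pool.Agent.Helper54.SP.StmtsP

set_option autoImplicit false

namespace Pool.Agent.Helper54.SP

open Finset

lemma le1_erase (l : List ℕ) (k : ℕ) (hl : l.length = k + 1) (i : Fin (k + 1)) (r : Fin k) :
    (l.eraseIdx i).getD r 0 = l.getD (i.succAbove r : Fin (k + 1)) 0 := by
  have h1 : (l.eraseIdx i).length = k := by
    rw [List.length_eraseIdx, if_pos (by omega)]
    omega
  rw [List.getD_eq_getElem _ _ (by omega), List.getD_eq_getElem _ _ (by omega),
    List.getElem_eraseIdx]
  by_cases h : (r : ℕ) < i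
  · rw [dif_pos h]
    congr 1
    rw [Fin.succAbove_of_castSucc_lt _ _ (by rw [Fin.lt_def]; exact h)]
    rfl
  · rw [dif_neg h]
    congr 1
    rw [Fin.succAbove_of_le_castSucc _ _ (by rw [Fin.le_def]; exact not_lt.mp h)]
    rfl

theorem st_LE1 : ST_LE1 := by
  intro k n X h l hl hn
  have hn' : ∀ i : Fin (k + 1), l.getD i 0 < n := by
    intro i
    rw [List.getD_eq_getElem _ _ (by omega)]
    exact hn _ (List.getElem_mem _)
  unfold dt
  rw [Matrix.det_succ_column _ (Fin.last k), ← Fin.sum_univ_eq_sum_range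
    (fun i => (-1) ^ (i + k) * h (l.getD i 0) *
      (Matrix.of fun r j : Fin k => X ((l.eraseIdx i).getD r 0) j).det)]
  refine Finset.sum_congr rfl fun i _ => ?_
  rw [Matrix.of_apply]
  beta_reduce
  rw [if_pos (hn' i), if_neg (by rw [Fin.val_last]; omega), Fin.val_last]
  congr 2
  ext r c
  rw [Matrix.submatrix_apply, Matrix.of_apply, Matrix.of_apply]
  beta_reduce
  rw [if_pos (hn' _), Fin.succAbove_last, if_pos (by rw [Fin.val_castSucc]; exact c.isLt),
    Fin.val_castSucc, le1_erase l k hl]

end Pool.Agent.Helper54.SP
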