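import Pool.Agent.Helper54.SP.StmtsW

set_option autoImplicit false

namespace Pool.Agent.Helper54.SP

/-- the first wire of a term -/
def wwf_tb (K L l i b : ℕ) : Prop :=
  (i < 3 ∧ b = 4 * K + 5 * (3 * l + i)) ∨
    (3 ≤ i ∧ i < 5 ∧ b = 4 * K + 15 * L + 5 * (2 * l + (i - 3)))

lemma wwf_tbs (K L l i : ℕ) (hi : i < 5) : wwf_tb K L l i (tbs K L l i) := by
  unfold wwf_tb tbs
  by_cases h : i < 3
  · left
    rw [if_pos h]
    exact ⟨h, rfl⟩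
  · right
    rw [if_neg h]
    exact ⟨by omega, hi, rfl⟩

/-- description of a gate -/
def wwf_D (K L t : ℕ) (g : Gt) : Prop := ∃ l, l < L ∧
  ((∃ i b x, i < 5 ∧ x < K ∧ wwf_tb K L l i b ∧ t = 5 * l + i ∧
    g = (true, 5 * l + i, 2 * x, 2 * x + 1, b, b + 2)) ∨
  (∃ i b, i < 5 ∧ wwf_tb K L l i b ∧ t = 5 * L + (5 * l + i) ∧
    g = (true, 15 * L + (5 * l + i), b, b + 1, b + 2, b + 4)) ∨
  (∃ i b x, i < 5 ∧ x < K ∧ wwf_tb K L l i b ∧ t = 10 * L + (5 * l + i) ∧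
    g = (false, 5 * L + (5 * l + i), 2 * K + 2 * x, 2 * K + 2 * x + 1, b, b + 1)) ∨
  (∃ i b x, i < 5 ∧ x < K ∧ wwf_tb K L l i b ∧ t = 15 * L + (5 * l + i) ∧
    g = (false, 10 * L + (5 * l + i), 2 * K + 2 * x, 2 * K + 2 * x + 1, b + 2, b + 3)) ∨
  (∃ i, i < 3 ∧ t = 20 * L + (6 * l + i) ∧
    g = (false, 20 * L + (6 * l + i), 4 * K + 5 * (3 * l + i) + 3, 4 * K + 5 * (3 * l + i) + 4,
      4 * K + 25 * L + 8 * l + i, 4 * K + 25 * L + 8 * l + i + 1)) ∨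
  (∃ i, 3 ≤ i ∧ i < 5 ∧ t = 20 * L + (6 * l + i) ∧
    g = (false, 20 * L + (6 * l + i), 4 * K + 15 * L + 5 * (2 * l + (i - 3)) + 3,
      4 * K + 15 * L + 5 * (2 * l + (i - 3)) + 4,
      4 * K + 25 * L + 8 * l + (i + 2), 4 * K + 25 * L + 8 * l + (i + 3))) ∨
  (t = 20 * L + (6 * l + 5) ∧ g = (false, 20 * L + (6 * l + 5), 4 * K + 25 * L + 8 * l + 5,
    4 * K + 25 * L + 8 * l + 7, 4 * K + 25 * L + 8 * l, 4 * K + 25 * L + 8 * l + 4)))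

lemma wwf_lt {K : ℕ} {Q : List (List (ℕ × ℕ))} (h : BV K Q) (l i : ℕ) (hl : l < Q.length)
    (hi : i < 5) : ks (Q.getD l []) i < K ∧ js (Q.getD l []) i < K := by
  have h1 : Q.getD l [] ∈ Q := by
    rw [List.getD_eq_getElem _ _ hl]
    exact List.getElem_mem hl
  obtain ⟨h2, h3⟩ := h _ h1
  generalize Q.getD l [] = q at h2 h3
  have h4 : q.getD i (0, 0) ∈ q := by
    rw [List.getD_eq_getElem _ _ (by omega)]
    exact List.getElem_mem _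
  exact h3 _ h4

lemma wwf_C (K L l i : ℕ) (hl : l < L) (hi : i < 6) :
    wwf_D K L (20 * L + (6 * l + i)) (gC K L l i) := by
  refine ⟨l, hl, ?_⟩
  iterate 4 right
  unfold gC pbs
  by_cases h1 : i < 3
  · left
    refine ⟨i, h1, rfl, ?_⟩
    rw [if_pos h1]
    unfold tbs
    rw [if_pos h1]
  · right
    rw [if_neg h1]
    by_cases h2 : i < 5
    · left
      refine ⟨i, by omega, h2, rfl, ?_⟩
      rw [if_pos h2]
      unfold tbs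
      rw [if_neg h1]
    · right
      have h3 : i = 5 := by omega
      subst h3
      rw [if_neg h2]
      exact ⟨rfl, rfl⟩

lemma wwf_pos (h0 : ST_WMEM) {K : ℕ} {Q : List (List (ℕ × ℕ))} (h : BV K Q) (t : ℕ)
    (ht : t < 26 * Q.length) :
    wwf_D K Q.length t ((wiring K Q).getD t (false, 0, 0, 0, 0, 0)) := by
  obtain ⟨-, h1, h2, -⟩ := h0 K Q
  obtain ⟨L, hL⟩ : ∃ L, L = Q.length := ⟨_, rfl⟩
  rw [← hL] at ht h1 h2 ⊢
  by_cases hc : t < 20 * L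
  · obtain ⟨s, r, hs, hr, hsr⟩ : ∃ s r, s < 4 ∧ r < 5 * L ∧ t = 5 * L * s + r := by
      by_cases a1 : t < 5 * L
      · exact ⟨0, t, by omega, a1, by omega⟩
      by_cases a2 : t < 10 * L
      · exact ⟨1, t - 5 * L, by omega, by omega, by omega⟩
      by_cases a3 : t < 15 * L
      · exact ⟨2, t - 10 * L, by omega, by omega, by omega⟩
      · exact ⟨3, t - 15 * L, by omega, by omega, by omega⟩
    obtain ⟨l, i, hl, hi, hli⟩ : ∃ l i, l < L ∧ i < 5 ∧ r = 5 * l + i :=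
      ⟨r / 5, r % 5, by omega, by omega, by omega⟩
    obtain ⟨g1, g2, g3, g4⟩ := h1 l i hl hi
    have hx := wwf_lt h l i (by omega) hi
    have htb := wwf_tbs K L l i hi
    refine ⟨l, hl, ?_⟩
    interval_cases s
    · left
      have e : t = 5 * l + i := by omega
      refine ⟨i, _, _, hi, hx.1, htb, e, ?_⟩
      rw [e, g1]
      rfl
    · right; left
      have e : t = 5 * L + (5 * l + i) := by omega
      refine ⟨i, _, hi, htb, e, ?_⟩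
      rw [e, g2]
      rfl
    · right; right; left
      have e : t = 10 * L + (5 * l + i) := by omega
      refine ⟨i, _, _, hi, hx.2, htb, e, ?_⟩
      rw [e, g3]
      rfl
    · right; right; right; left
      have e : t = 15 * L + (5 * l + i) := by omega
      refine ⟨i, _, _, hi, hx.2, htb, e, ?_⟩
      rw [e, g4]
      rfl
  · obtain ⟨l, i, hl, hi, hli⟩ : ∃ l i, l < L ∧ i < 6 ∧ t = 20 * L + (6 * l + i) :=
      ⟨(t - 20 * L) / 6, (t - 20 * L) % 6, by omega, by omega, by omega⟩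
    rw [hli, h2 l i hl hi]
    exact wwf_C K L l i hl hi

lemma wwf_mem (h0 : ST_WMEM) {K : ℕ} {Q : List (List (ℕ × ℕ))} (h : BV K Q) (g : Gt)
    (hg : g ∈ wiring K Q) : ∃ t, t < 26 * Q.length ∧ wwf_D K Q.length t g := by
  obtain ⟨t, ht, e⟩ := List.getElem_of_mem hg
  have h1 := (h0 K Q).1
  refine ⟨t, by omega, ?_⟩
  have h2 := wwf_pos h0 h t (by omega)
  rw [List.getD_eq_getElem _ _ ht, e] at h2
  exact h2

/-- the rank in terms of the position -/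
lemma wwf_c (K L t : ℕ) (g : Gt) (h : wwf_D K L t g) : g.c < 26 * L ∧
    ((t < 10 * L ∧ g.k = true) ∨ (10 * L ≤ t ∧ g.k = false)) ∧
    ((t < 5 * L ∧ g.c = t) ∨ (5 * L ≤ t ∧ t < 10 * L ∧ g.c = t + 10 * L) ∨
      (10 * L ≤ t ∧ t < 20 * L ∧ g.c + 5 * L = t) ∨ (20 * L ≤ t ∧ g.c = t)) := by
  obtain ⟨l, hl, h⟩ := h
  rcases h with ⟨i, b, x, hi, hx, htb, ht, rfl⟩ | ⟨i, b, hi, htb, ht, rfl⟩ |
    ⟨i, b, x, hi, hx, htb, ht, rfl⟩ | ⟨i, b, x, hi, hx, htb, ht, rfl⟩ | ⟨i, hi, ht, rfl⟩ |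
    ⟨i, hi, hi', ht, rfl⟩ | ⟨ht, rfl⟩
  · exact ⟨by show 5 * l + i < _; omega, Or.inl ⟨by omega, rfl⟩, Or.inl ⟨by omega, ht.symm⟩⟩
  · exact ⟨by show 15 * L + (5 * l + i) < _; omega, Or.inl ⟨by omega, rfl⟩,
      Or.inr (Or.inl ⟨by omega, by omega, by show 15 * L + (5 * l + i) = _; omega⟩)⟩
  · exact ⟨by show 5 * L + (5 * l + i) < _; omega, Or.inr ⟨by omega, rfl⟩,
      Or.inr (Or.inr (Or.inl ⟨by omega, by omega, by show 5 * L + (5 * l + i) + _ = _; omega⟩))⟩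
  · exact ⟨by show 10 * L + (5 * l + i) < _; omega, Or.inr ⟨by omega, rfl⟩,
      Or.inr (Or.inr (Or.inl ⟨by omega, by omega, by show 10 * L + (5 * l + i) + _ = _; omega⟩))⟩
  · exact ⟨by show 20 * L + (6 * l + i) < _; omega, Or.inr ⟨by omega, rfl⟩,
      Or.inr (Or.inr (Or.inr ⟨by omega, ht.symm⟩))⟩
  · exact ⟨by show 20 * L + (6 * l + i) < _; omega, Or.inr ⟨by omega, rfl⟩,
      Or.inr (Or.inr (Or.inr ⟨by omega, ht.symm⟩))⟩
  · exact ⟨by show 20 * L + (6 * l + 5) < _; omega, Or.inr ⟨by omega, rfl⟩,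
      Or.inr (Or.inr (Or.inr ⟨by omega, ht.symm⟩))⟩

lemma wwf_wires (K L t : ℕ) (g : Gt) (h : wwf_D K L t g) : g.u < g.u' ∧ g.a < g.a' ∧
    g.u' < 4 * K + 33 * L ∧ g.a' < 4 * K + 33 * L ∧ g.u ≠ g.a ∧ g.u ≠ g.a' ∧
    g.u' ≠ g.a ∧ g.u' ≠ g.a' := by
  obtain ⟨l, hl, h⟩ := h
  rcases h with ⟨i, b, x, hi, hx, htb, ht, rfl⟩ | ⟨i, b, hi, htb, ht, rfl⟩ |
    ⟨i, b, x, hi, hx, htb, ht, rfl⟩ | ⟨i, b, x, hi, hx, htb, ht, rfl⟩ | ⟨i, hi, ht, rfl⟩ |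
    ⟨i, hi, hi', ht, rfl⟩ | ⟨ht, rfl⟩ <;> simp only [Gt.u, Gt.u', Gt.a, Gt.a'] <;>
    (try unfold wwf_tb at htb) <;> omega

lemma wwf_out (K L t t' : ℕ) (g g' : Gt) (h : wwf_D K L t g) (h' : wwf_D K L t' g')
    (he : g.a' = g'.a') : t = t' := by
  obtain ⟨l, hl, h⟩ := h
  obtain ⟨l', hl', h'⟩ := h'
  rcases h with ⟨i, b, x, hi, hx, htb, ht, rfl⟩ | ⟨i, b, hi, htb, ht, rfl⟩ |
    ⟨i, b, x, hi, hx, htb, ht, rfl⟩ | ⟨i, b, x, hi, hx, htb, ht, rfl⟩ | ⟨i, hi, ht, rfl⟩ |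
    ⟨i, hi, hi', ht, rfl⟩ | ⟨ht, rfl⟩ <;>
  rcases h' with ⟨i', b', x', hi', hx', htb', ht', rfl⟩ | ⟨i', b', hi', htb', ht', rfl⟩ |
    ⟨i', b', x', hi', hx', htb', ht', rfl⟩ | ⟨i', b', x', hi', hx', htb', ht', rfl⟩ |
    ⟨i', hi', ht', rfl⟩ | ⟨i', hi', hi2', ht', rfl⟩ | ⟨ht', rfl⟩ <;>
  simp only [Gt.a'] at he <;>
    (try unfold wwf_tb at htb) <;> (try unfold wwf_tb at htb') <;> omega

lemma wwf_topo (K L t t' : ℕ) (g g' : Gt) (h : wwf_D K L t g) (h' : wwf_D K L t' g')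
    (he : g.a' = g'.u ∨ g.a' = g'.u' ∨ g.a' = g'.a) : g.c < g'.c := by
  obtain ⟨l, hl, h⟩ := h
  obtain ⟨l', hl', h'⟩ := h'
  rcases h with ⟨i, b, x, hi, hx, htb, ht, rfl⟩ | ⟨i, b, hi, htb, ht, rfl⟩ |
    ⟨i, b, x, hi, hx, htb, ht, rfl⟩ | ⟨i, b, x, hi, hx, htb, ht, rfl⟩ | ⟨i, hi, ht, rfl⟩ |
    ⟨i, hi, hi', ht, rfl⟩ | ⟨ht, rfl⟩ <;>
  rcases h' with ⟨i', b', x', hi', hx', htb', ht', rfl⟩ | ⟨i', b', hi', htb', ht', rfl⟩ |
    ⟨i', b', x', hi', hx', htb', ht', rfl⟩ | ⟨i', b', x', hi', hx', htb', ht', rfl⟩ |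
    ⟨i', hi', ht', rfl⟩ | ⟨i', hi', hi2', ht', rfl⟩ | ⟨ht', rfl⟩ <;>
  simp only [Gt.a', Gt.u, Gt.u', Gt.a, Gt.c] at he ⊢ <;>
    (try unfold wwf_tb at htb) <;> (try unfold wwf_tb at htb') <;> omega

theorem st_WWF (h0 : ST_WMEM) : ST_WWF := by
  intro K Q h
  have hlen := (h0 K Q).1
  constructor
  · intro s t hst ht hk
    have h1 := (wwf_c _ _ _ _ (wwf_pos h0 h t (by omega))).2.1
    have h2 := (wwf_c _ _ _ _ (wwf_pos h0 h s (by omega))).2.1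
    rw [hk] at h1
    simp only [Bool.true_eq_false, and_false, or_false] at h1
    rcases h2 with h2 | h2
    · exact h2.2
    · omega
  · intro g hg
    obtain ⟨t, ht, h1⟩ := wwf_mem h0 h g hg
    rw [hlen]
    exact (wwf_c _ _ _ _ h1).1
  · intro s t hs ht hst
    have h1 := (wwf_c _ _ _ _ (wwf_pos h0 h t (by omega))).2.2
    have h2 := (wwf_c _ _ _ _ (wwf_pos h0 h s (by omega))).2.2
    omega
  · intro g hg
    obtain ⟨t, ht, h1⟩ := wwf_mem h0 h g hg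
    exact wwf_wires _ _ _ _ h1
  · intro s t hs ht hst
    exact wwf_out _ _ _ _ _ _ (wwf_pos h0 h s (by omega)) (wwf_pos h0 h t (by omega)) hst
  · intro g hg g' hg' hgg
    obtain ⟨t, ht, h1⟩ := wwf_mem h0 h g hg
    obtain ⟨t', ht', h1'⟩ := wwf_mem h0 h g' hg'
    exact wwf_topo _ _ _ _ _ _ h1 h1' hgg

end Pool.Agent.Helper54.SP
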